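import Pool.Agent.H10.MvB

namespace Pool.Agent.Results.MP_f22ace_co.Cond

open Pool.Agent.H10.Mv Filter

theorem result :
    (∀ d, 2 ≤ d → Tendsto (fun k => Phi (Lam d k)) atTop (nhds 0)) ∧
    (∀ k, 1 ≤ k → Tendsto (fun d => Phi (Lam d k)) atTop (nhds 0)) :=
  ⟨fun _ hd => tends_k hd, fun _ hk => tends_d hk⟩

end Pool.Agent.Results.MP_f22ace_co.Cond
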